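import Mathlib
import Pool.Agent.Lib.helper13.Stohr

set_option autoImplicit false

open Finset Filter Topology Pointwise

namespace Pool.Agent.Results.MP_b92640_nt.Stohr

/-- `B` (with `0 ∈ B`) is a basis of order `h`: every natural number is a sum of `h` elements of `B`. -/
def IsBasis (h : ℕ) (B : Set ℕ) : Prop :=
  0 ∈ B ∧ ∀ m : ℕ, ∃ f : Fin h → ℕ, (∀ i, f i ∈ B) ∧ ∑ i, f i = m

open Classical in
/-- There is a sequence `A ∋ 0`, different from `{0,1} ∪ primes`, of asymptotic density zero such that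
`A + B` has positive Schnirelmann density for every basis `B` of any order `h` (in particular `h = 2`). -/
theorem result : ∃ A : Set ℕ, 0 ∈ A ∧ A ≠ {0, 1} ∪ {p | p.Prime} ∧
    Tendsto (fun n : ℕ => (#{a ∈ Ioc 0 n | a ∈ A} : ℝ) / n) atTop (𝓝 0) ∧
    ∀ (h : ℕ) (B : Set ℕ), IsBasis h B → 0 < schnirelmannDensity (A + B) := by
  obtain ⟨A, h0, h1, h2, h3⟩ := H13St.main
  refine ⟨A, h0, fun h => h1 (h ▸ .inl (.inr rfl)), ?_, fun h B hB => ?_⟩
  · refine tendsto_order.2 ⟨fun a ha => .of_forall fun n => ha.trans_le (by positivity),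
      fun ε hε => ?_⟩
    obtain ⟨k, hk⟩ := exists_nat_gt (4 / ε)
    obtain ⟨C, hC⟩ := h2 k
    filter_upwards [eventually_gt_atTop C] with n hn
    have e := hC n {a ∈ Ioc 0 n | a ∈ A} fun a ha =>
      ⟨(mem_filter.1 ha).2, (mem_Ioc.1 (mem_filter.1 ha).1).2⟩
    have e' : (k : ℝ) * #{a ∈ Ioc 0 n | a ∈ A} ≤ C + 3 * n := by exact_mod_cast e
    have hn' : (C : ℝ) < n := by exact_mod_cast hn
    have hn0 : (0 : ℝ) < n := lt_of_le_of_lt (by positivity) hn'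
    rw [div_lt_iff₀ hε] at hk
    rw [div_lt_iff₀ hn0]
    by_contra hc
    nlinarith [mul_le_mul_of_nonneg_left (not_lt.1 hc) (Nat.cast_nonneg (α := ℝ) k)]
  · obtain ⟨C, hC⟩ := h3 h B hB.2
    have one : 1 ∈ A + B := by
      obtain ⟨f, hf, e⟩ := hB.2 1
      obtain ⟨i, -, hi⟩ := exists_ne_zero_of_sum_ne_zero (e ▸ one_ne_zero : ∑ i, f i ≠ 0)
      have := single_le_sum (f := f) (fun _ _ => Nat.zero_le _) (mem_univ i)
      exact ⟨0, h0, f i, hf i, by simp only; omega⟩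
    refine lt_of_lt_of_le (b := 1 / ((C : ℝ) + 16)) (by positivity)
      (le_schnirelmannDensity_iff.2 fun n hn => ?_)
    obtain ⟨F, hF, hF'⟩ := hC n
    have e1 : #F ≤ #{a ∈ Ioc 0 n | a ∈ A + B} := card_le_card fun u hu => by
      obtain ⟨u1, u2, a, ha, b, hb, e⟩ := hF u hu
      exact mem_filter.2 ⟨mem_Ioc.2 ⟨u1, u2⟩, a, ha, b, hb, e⟩
    have e2 : 1 ≤ #{a ∈ Ioc 0 n | a ∈ A + B} :=
      card_pos.2 ⟨1, mem_filter.2 ⟨mem_Ioc.2 ⟨one_pos, hn⟩, one⟩⟩
    have e3 : n ≤ #{a ∈ Ioc 0 n | a ∈ A + B} * (C + 16) := by nlinarith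
    rw [div_le_div_iff₀ (by positivity) (by exact_mod_cast hn), one_mul]
    exact_mod_cast e3

end Pool.Agent.Results.MP_b92640_nt.Stohr
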